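import Pool.Agent.Work.MP_db9399_xq.PrepQ
import Pool.Agent.Work.MP_db9399_sx_helper1.MTP
import Pool.Agent.Work.MP_db9399_sx_helper83.UHC

/-!
# MP_db9399, spots in the frame of note 1519, block PRQ (helper59): availability and glued pairs
-/

set_option autoImplicit false

namespace Pool.Agent.Work.MP_db9399_xq.helper59

open Finset Classical
open Pool.Agent.Work.MP_db9399_all (nb)
open Pool.Agent.Work.MP_db9399_dn (IsMat Tot)
open Pool.Agent.Work.MP_db9399_bg (HPre)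
open Pool.Agent.Work.MP_db9399_sl (InS Same Gout Gss Gin Gex Out Vert)
open Pool.Agent.Work.MP_db9399_sv (Cor Mis slo ms FE GsL GxL bt slL Bas Sit)
open Pool.Agent.Work.MP_db9399_sw (shs sms wt wl od ac avl SHH Gxh Grh Lgt)
open Pool.Agent.Work.MP_db9399_sx (Grp Lts ubl)
open Pool.Agent.Work.MP_db9399_xq

universe u

section

variable {V : Type u} [Fintype V] {k : ℕ}

theorem mem_nb' {G : SimpleGraph V} {v w : V} : w ∈ nb G v ↔ G.Adj v w := by
  simp [nb]

/-- double counting of the colours blocked by `UH` -/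
theorem dc (G EH : SimpleGraph V) (UH Hs Y : Finset V) (c0 tu : V → Fin k) (ε : ℝ)
    (hpre : HPre G UH c0 EH tu) (F : Finset (Fin k))
    (hFm : ∀ b ∈ F, (1 - ε) * (Y.card : ℝ) ≤ ((ubl G UH c0 Y b \ Hs).card : ℝ)) :
    (F.card : ℝ) * (1 - ε) * Y.card ≤
      ((∑ v ∈ Y \ Hs, ((nb G v).filter (fun y => y ∉ Y ∧ y ∈ UH)).card : ℕ) : ℝ) ∧
    ((∑ v ∈ Y \ Hs, ((nb G v).filter (fun y => y ∉ Y ∧ y ∈ UH)).card : ℕ) : ℝ) ≤
      2 * (Y.card : ℝ) := by
  have h1 := sum_card_bipartiteAbove_eq_sum_card_bipartiteBelow (s := F) (t := Y \ Hs)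
    (fun (b : Fin k) (v : V) => v ∈ ubl G UH c0 Y b)
  have h2 : ∀ b, bipartiteAbove (fun (b : Fin k) (v : V) => v ∈ ubl G UH c0 Y b) (Y \ Hs) b =
      ubl G UH c0 Y b \ Hs := by
    intro b
    ext v
    rw [bipartiteAbove, mem_filter, mem_sdiff, mem_sdiff]
    constructor
    · rintro ⟨⟨_, h3⟩, h4⟩
      exact ⟨h4, h3⟩
    · rintro ⟨h3, h4⟩
      refine ⟨⟨?_, h4⟩, h3⟩
      rw [ubl, mem_filter] at h3
      exact h3.1
  have h3 : ∀ v ∈ Y \ Hs, (bipartiteBelow (fun (b : Fin k) (v : V) => v ∈ ubl G UH c0 Y b) F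
      v).card ≤ ((nb G v).filter (fun y => y ∉ Y ∧ y ∈ UH)).card := by
    intro v _
    refine le_trans (card_le_card (t := ((nb G v).filter (fun y => y ∉ Y ∧ y ∈ UH)).image c0)
      ?_) card_image_le
    intro b hb
    rw [bipartiteBelow, mem_filter, ubl, mem_filter] at hb
    obtain ⟨_, _, w, hw1, hw2, hw3, hw4⟩ := hb
    rw [mem_image]
    refine ⟨w, ?_, hw4⟩
    rw [mem_filter, nb, mem_filter]
    exact ⟨⟨mem_univ _, hw3⟩, hw2, hw1⟩
  have h4 : ∑ b ∈ F, (ubl G UH c0 Y b \ Hs).card ≤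
      ∑ v ∈ Y \ Hs, ((nb G v).filter (fun y => y ∉ Y ∧ y ∈ UH)).card := by
    rw [← sum_congr rfl (fun b _ => congrArg card (h2 b)), h1]
    exact sum_le_sum h3
  constructor
  · have h6 : (F.card : ℝ) * ((1 - ε) * Y.card) ≤
        ∑ b ∈ F, ((ubl G UH c0 Y b \ Hs).card : ℝ) := by
      have h7 := card_nsmul_le_sum F (fun b => ((ubl G UH c0 Y b \ Hs).card : ℝ))
        ((1 - ε) * (Y.card : ℝ)) hFm
      rw [nsmul_eq_mul] at h7
      exact h7
    have h8 : ((∑ b ∈ F, (ubl G UH c0 Y b \ Hs).card : ℕ) : ℝ) ≤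
        ((∑ v ∈ Y \ Hs, ((nb G v).filter (fun y => y ∉ Y ∧ y ∈ UH)).card : ℕ) : ℝ) := by
      exact_mod_cast h4
    rw [Nat.cast_sum] at h8
    rw [mul_assoc]
    exact le_trans h6 h8
  · have h6 : ∑ v ∈ Y \ Hs, ((nb G v).filter (fun y => y ∉ Y ∧ y ∈ UH)).card ≤ 2 * Y.card := by
      have h7 : ∀ v ∈ Y \ Hs, ((nb G v).filter (fun y => y ∉ Y ∧ y ∈ UH)).card ≤ 2 := by
        intro v _
        refine le_trans (card_le_card ?_) (Pool.Agent.Work.MP_db9399_sx.helper83.uh_two hpre v)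
        intro y hy
        rw [mem_filter] at hy ⊢
        exact ⟨hy.1, hy.2.2⟩
      have h8 := sum_le_card_nsmul (Y \ Hs) _ 2 h7
      have h9 : (Y \ Hs).card ≤ Y.card := card_le_card sdiff_subset
      rw [smul_eq_mul] at h8
      omega
    exact_mod_cast h6

end

theorem stmt_PRQ : Stmt_PRQ.{u} := by
  intro ζ ε θ hζ hζ1 hε hε1 hθ hθ1
  obtain ⟨e, he, he1, he2, he3⟩ : ∃ e : ℝ, 0 < e ∧ e ≤ ε ∧ e ≤ ζ ∧ e ≤ θ :=
    ⟨min ε (min ζ θ), by positivity, min_le_left _ _, (min_le_right _ _).trans (min_le_left _ _),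
      (min_le_right _ _).trans (min_le_right _ _)⟩
  obtain ⟨dM, hM⟩ := Pool.Agent.Work.MP_db9399_sx.helper1.stmt_MTP.{u} (1 / 2) (by norm_num)
    (by norm_num)
  have hlog : ∀ᶠ d : ℕ in Filter.atTop, (4 : ℝ) ≤ Real.log d :=
    (Real.tendsto_log_atTop.comp tendsto_natCast_atTop_atTop).eventually_ge_atTop _
  obtain ⟨dL, hL⟩ := Filter.eventually_atTop.mp hlog
  refine ⟨e / 20, by positivity, by linarith, e / 100, e / 100, e / 10,
    max dM (max dL (max 1 ⌈200 / e⌉₊)), by positivity, by positivity, by positivity, ?_⟩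
  intro V _ k π θ' τ G EH d Ys UH Hs c0 tu cc t E K0 C p a Z hd gr hO hHs hOw
  have hdM : dM ≤ d := (le_max_left _ _).trans hd
  have hdL : dL ≤ d := (le_max_left _ _).trans ((le_max_right _ _).trans hd)
  have hd1 : 1 ≤ d :=
    (le_max_left _ _).trans ((le_max_right _ _).trans ((le_max_right _ _).trans hd))
  have hde : ⌈200 / e⌉₊ ≤ d :=
    (le_max_right _ _).trans ((le_max_right _ _).trans ((le_max_right _ _).trans hd))
  have hde' : 200 ≤ e * d := by
    have h1 : 200 / e ≤ d := (Nat.le_ceil _).trans (by exact_mod_cast hde)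
    rw [div_le_iff₀ he] at h1
    linarith
  have hd0 : (0 : ℝ) < d := by exact_mod_cast hd1
  have hlog4 := hL d hdL
  have hsh : ∀ Y ∈ shs d Ys, Y ∈ Ys ∧ Y.card < d := fun Y hY => by
    unfold shs at hY
    exact mem_filter.1 hY
  have hYlow : ∀ Y ∈ Ys, (99 / 100 : ℝ) * d ≤ Y.card := by
    intro Y hY
    refine le_trans ?_ (gr.low Y hY)
    exact mul_le_mul_of_nonneg_right (by linarith) hd0.le
  obtain ⟨Fy, hFy⟩ : ∃ Fy : Finset V → Finset (Fin k), ∀ Y, Fy Y = K0.filter (fun b =>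
      (1 - ε) * (Y.card : ℝ) ≤ ((ubl G UH c0 Y b \ Hs).card : ℝ)) := ⟨_, fun _ => rfl⟩
  have hdc : ∀ Y, ((Fy Y).card : ℝ) * (1 - ε) * Y.card ≤
      ((∑ v ∈ Y \ Hs, ((nb G v).filter (fun y => y ∉ Y ∧ y ∈ UH)).card : ℕ) : ℝ) ∧
      ((∑ v ∈ Y \ Hs, ((nb G v).filter (fun y => y ∉ Y ∧ y ∈ UH)).card : ℕ) : ℝ) ≤
      2 * (Y.card : ℝ) := by
    intro Y
    refine dc G EH UH Hs Y c0 tu ε gr.pre (Fy Y) ?_
    intro b hb
    rw [hFy, mem_filter] at hb
    exact hb.2
  have hF2 : ∀ Y ∈ Ys, (Fy Y).card ≤ 2 := by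
    intro Y hY
    have h1 := (hdc Y).1.trans (hdc Y).2
    have h8 : 0 < (Y.card : ℝ) := by
      have := hYlow Y hY
      linarith
    have h9 : ((Fy Y).card : ℝ) * (1 - ε) ≤ 2 := le_of_mul_le_mul_right h1 h8
    have h10 : ((Fy Y).card : ℝ) * (9 / 10) ≤ ((Fy Y).card : ℝ) * (1 - ε) := by
      apply mul_le_mul_of_nonneg_left _ (Nat.cast_nonneg _)
      linarith
    have h11 : ((Fy Y).card : ℝ) < 3 := by linarith
    have h12 : (Fy Y).card < 3 := by exact_mod_cast h11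
    omega
  obtain ⟨Mt, pn, m1, m2, m3, m4, m5⟩ := hM θ θ' (e / 10) G EH d Ys UH Hs ∅ c0 tu Fy hdM hθ1
    gr (fun Y hY hYs => by
      obtain ⟨hYY, hYd⟩ := hsh Y hY
      have h1 : Real.log d ^ 3 * Y.card ≤ wl G d Hs Y := by
        by_contra h
        exact hYs (by
          unfold sms
          exact mem_filter.mpr ⟨hY, not_le.mp h⟩)
      have h2 : ((Fy Y).card : ℝ) ≤ 2 := by exact_mod_cast hF2 Y hYY
      have h3 : (4 : ℝ) ≤ Real.log d ^ 3 := by
        have h4 : (4 : ℝ) ^ 3 ≤ Real.log d ^ 3 := pow_le_pow_left₀ (by norm_num) hlog4 3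
        linarith
      have h4 : (0 : ℝ) ≤ (Y.card : ℝ) := Nat.cast_nonneg _
      nlinarith)
    (fun Y hY => by
      unfold sms at hY
      exact hF2 Y (hsh Y (mem_filter.1 hY).1).1)
    (fun v hv => absurd hv (notMem_empty _))
  refine ⟨Fy, Mt, pn, ?_, ?_, ?_, m2, m3, m1, ?_, m5⟩
  · intro Y _
    rw [hFy]
    exact filter_subset _ _
  · intro Y _
    exact (hdc Y).1
  · intro Y hY b hb hbF hbc
    obtain ⟨hYY, hYd⟩ := hsh Y hY
    have hYl := hYlow Y hYY
    have hYu : (Y.card : ℝ) ≤ d := by exact_mod_cast hYd.le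
    -- not blocked by `UH`
    have hub : ((ubl G UH c0 Y b \ Hs).card : ℝ) < (1 - ε) * Y.card := by
      rw [hFy, mem_filter, not_and, not_le] at hbF
      exact hbF hb
    -- the neighbours of the vertices which are no hubs
    obtain ⟨Q, hQ⟩ : ∃ Q : Finset V, Q = Y.filter (fun v => ∃ w, ¬ InS Ys w ∧ w ∉ UH ∧ cc w = b ∧
      ((nb G w ∩ Y).card : ℝ) < τ * d ∧ G.Adj v w) := ⟨_, rfl⟩
    have hQc : (Q.card : ℝ) ≤ e / 100 * d := by
      refine le_trans ?_ (hOw.non Y hY b)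
      have h1 : Q.card ≤ ∑ w ∈ univ.filter (fun w => ¬ InS Ys w ∧ w ∉ UH ∧ cc w = b ∧
          ((nb G w ∩ Y).card : ℝ) < τ * d), (nb G w ∩ Y).card := by
        refine le_trans (card_le_card (t := (univ.filter (fun w => ¬ InS Ys w ∧ w ∉ UH ∧
          cc w = b ∧ ((nb G w ∩ Y).card : ℝ) < τ * d)).biUnion (fun w => nb G w ∩ Y)) ?_)
          card_biUnion_le
        intro v hv
        rw [hQ, mem_filter] at hv
        obtain ⟨hvY, w, h1, h2, h3, h4, h5⟩ := hv
        rw [mem_biUnion]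
        exact ⟨w, mem_filter.2 ⟨mem_univ _, h1, h2, h3, h4⟩,
          mem_inter.2 ⟨mem_nb'.2 h5.symm, hvY⟩⟩
      exact_mod_cast h1
    -- the exceptional sets
    obtain ⟨X, hX⟩ : ∃ X : Finset V, X = (Y ∩ UH) ∪ ((Y ∩ Z) ∪
      (Y.filter (fun v => v ∉ Z ∧ b ∈ E v) ∪ Q)) := ⟨_, rfl⟩
    have hXc : (X.card : ℝ) ≤ 2 + 3 * (e / 100 * d) := by
      have h1 : X.card ≤ (Y ∩ UH).card + ((Y ∩ Z).card +
          ((Y.filter (fun v => v ∉ Z ∧ b ∈ E v)).card + Q.card)) := by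
        rw [hX]
        exact (card_union_le _ _).trans (Nat.add_le_add_left ((card_union_le _ _).trans
          (Nat.add_le_add_left (card_union_le _ _) _)) _)
      have h1' : (X.card : ℝ) ≤ (Y ∩ UH).card + ((Y ∩ Z).card +
          ((Y.filter (fun v => v ∉ Z ∧ b ∈ E v)).card + Q.card)) := by exact_mod_cast h1
      have h2 : ((Y ∩ UH).card : ℝ) ≤ 2 := by exact_mod_cast gr.uh2 Y hYY
      have h3 := hO.ZY Y hYY
      have h4 := hO.ld Y hYY b
      linarith
    -- classification of the remaining vertices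
    have key : ∀ v ∈ Y, v ∉ X → v ∉ ubl G UH c0 Y b →
        (∀ w, ¬ InS Ys w → w ∉ UH → cc w = b → τ * d ≤ ((nb G w ∩ Y).card : ℝ) →
          ¬ G.Adj v w) → v ∈ avl G Ys UH cc E Y b := by
      intro v hvY hvX hvu hvh
      rw [hX, mem_union, mem_union, mem_union, mem_inter, mem_inter, mem_filter] at hvX
      push Not at hvX
      obtain ⟨x1, x2, x3, x4⟩ := hvX
      unfold avl
      refine mem_filter.2 ⟨hvY, x1 hvY, x3 hvY (x2 hvY), ?_⟩
      intro hac
      unfold ac at hac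
      obtain ⟨w, hw, hwb⟩ := mem_image.1 hac
      obtain ⟨hw1, hw2⟩ := mem_filter.1 hw
      have hadj : G.Adj v w := mem_nb'.1 hw1
      by_cases hwU : w ∈ UH
      · by_cases hwY : w ∈ Y
        · refine hbc (mem_image.2 ⟨w, mem_inter.2 ⟨hwY, hwU⟩, ?_⟩)
          rw [← hO.cU w hwU]
          exact hwb
        · apply hvu
          unfold ubl
          refine mem_filter.2 ⟨hvY, w, hwU, hwY, hadj, ?_⟩
          rw [← hO.cU w hwU]
          exact hwb
      · have hwS : ¬ InS Ys w := fun h => hwU (hw2 h)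
        rcases lt_or_ge ((nb G w ∩ Y).card : ℝ) (τ * d) with h | h
        · apply x4
          rw [hQ]
          exact mem_filter.2 ⟨hvY, w, hwS, hwU, hwb, h, hadj⟩
        · exact hvh w hwS hwU hwb h hadj
    by_cases hhub : ∃ w0, ¬ InS Ys w0 ∧ w0 ∉ UH ∧ cc w0 = b ∧ τ * d ≤ ((nb G w0 ∩ Y).card : ℝ)
    · obtain ⟨w0, w1, w2, w3, w4⟩ := hhub
      have hh := hOw.hub Y hY w0 w1 w2 w4
      rw [w3] at hh
      have habs := hOw.abs Y hYY w0 w1
      have hsub : Y \ nb G w0 ⊆ avl G Ys UH cc E Y b ∪ (X ∪ ubl G UH c0 Y b) := by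
        intro v hv
        obtain ⟨hvY, hvn⟩ := mem_sdiff.1 hv
        by_cases h1 : v ∈ X
        · exact mem_union_right _ (mem_union_left _ h1)
        by_cases h2 : v ∈ ubl G UH c0 Y b
        · exact mem_union_right _ (mem_union_right _ h2)
        refine mem_union_left _ (key v hvY h1 h2 ?_)
        intro w g1 g2 g3 g4 g5
        by_cases h3 : w = w0
        · rw [h3] at g5
          exact hvn (mem_nb'.2 g5.symm)
        · exact hOw.dif Y hY w w0 g1 w1 g2 w2 h3 g4 w4 (g3.trans w3.symm)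
      have h1 : (Y \ nb G w0).card ≤ (avl G Ys UH cc E Y b).card +
          (X.card + (ubl G UH c0 Y b).card) :=
        (card_le_card hsub).trans ((card_union_le _ _).trans
          (Nat.add_le_add_left (card_union_le _ _) _))
      have h2 : ((Y \ nb G w0).card : ℝ) ≤ (avl G Ys UH cc E Y b).card +
          (X.card + (ubl G UH c0 Y b).card) := by exact_mod_cast h1
      have h3 : ζ / 4 * (Y.card : ℝ) ≤ ζ / 4 * d := mul_le_mul_of_nonneg_left hYu (by positivity)
      have h4 : e * d ≤ ζ * d := mul_le_mul_of_nonneg_right he2 hd0.le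
      linarith
    · push Not at hhub
      have hsub : (Y \ Hs) ⊆ avl G Ys UH cc E Y b ∪ (X ∪ (ubl G UH c0 Y b \ Hs)) := by
        intro v hv
        obtain ⟨hvY, hvn⟩ := mem_sdiff.1 hv
        by_cases h1 : v ∈ X
        · exact mem_union_right _ (mem_union_left _ h1)
        by_cases h2 : v ∈ ubl G UH c0 Y b
        · exact mem_union_right _ (mem_union_right _ (mem_sdiff.2 ⟨h2, hvn⟩))
        refine mem_union_left _ (key v hvY h1 h2 ?_)
        intro w g1 g2 g3 g4 g5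
        have := hhub w g1 g2 g3
        linarith
      have h1 : (Y \ Hs).card ≤ (avl G Ys UH cc E Y b).card +
          (X.card + (ubl G UH c0 Y b \ Hs).card) :=
        (card_le_card hsub).trans ((card_union_le _ _).trans
          (Nat.add_le_add_left (card_union_le _ _) _))
      have h2 : ((Y \ Hs).card : ℝ) ≤ (avl G Ys UH cc E Y b).card +
          (X.card + (ubl G UH c0 Y b \ Hs).card) := by exact_mod_cast h1
      have h3 : ((Y ∩ Hs).card : ℝ) + (Y \ Hs).card = Y.card := by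
        exact_mod_cast Finset.card_inter_add_card_sdiff Y Hs
      have h4 := hHs Y hYY
      have h5 : (ε - e / 10) * (99 / 100 * d) ≤ (ε - e / 10) * Y.card :=
        mul_le_mul_of_nonneg_left hYl (by linarith)
      have h6 : e * d ≤ ε * d := mul_le_mul_of_nonneg_right he1 hd0.le
      nlinarith
  · intro v w h
    obtain ⟨h1, h2, h3, -⟩ := m4 v w h
    exact ⟨h1, h2, h3⟩

end Pool.Agent.Work.MP_db9399_xq.helper59
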